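import Pool.Agent.T2h24c.Poly
import Pool.Agent.T2h24c.One

/-!
# Multiplicative functions periodic modulo primes: power savings

Let `F` be a multiplicative function with integral values. If `S_F` is infinite then `F` is completely
multiplicative, and `|F|` extends to an endomorphism of the group of the positive rational numbers. For a
polynomial `c = ∑ᵢ c i T ^ i` with integral coefficients let `c(F)` be the endomorphism
`n ↦ w F c n = ∏ᵢ |F^i(n)| ^ (c i)`, where `F^i` is the `i`-th iterate of `|F|`.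

**Theorem.** If one of the endomorphisms `c(F)` is neither injective nor trivial, then for every `ε > 0`
the number of the primes `l ≤ X` modulo which `F` is periodic with period `l` is `O(X ^ (2/3 + ε))`. For
example, if there is one rational number `u ≠ 1` such that `u` and `F(u)` are multiplicatively dependent
(for instance one prime `p` such that `F(p)` is `±` a power of `p`), then this is true, or `F` is a
monomial `n ↦ n ^ k`. If there are pairwise coprime polynomials `c 1, ..., c r` such that the `c i (F)`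
are not injective, then the number is `O(X ^ (2/r))`; for instance this is so for all `r`, if
`F(p)` is `±` a power of `p` for infinitely many primes `p`, with infinitely many exponents.

Proof. For `l` in `S_F` one has `F(n) ≡ n ^ g` modulo `l`, hence `c(F)(n) ≡ ± n ^ c(g)`. So modulo `l`
the `2 c(g)`-th powers of the elements of the kernel of `c(F)` are `1`, and the squares of the values of
`c(F)` are `2 c(g)`-th powers: the orders modulo `l` of a subgroup of the kernel and of a group generated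
by squares of values have a product of at most `l - 1`. A multiplicatively independent set of `r` rational
numbers generates modulo all but `O(y ^ (1 + 1/r))` primes a group of order larger than `y` (Gupta-Murty,
Matthews). If the kernel contains `r` and the image contains `t` independent elements the exponent is
`1 / (r / (r + 1) + t / (t + 1))`; if the kernel and the image are both nontrivial, the rank of one of them
is infinite. The orders modulo `l` of nontrivial elements of the kernels of `c i (F)`, `i = 1, ..., r`, have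
bounded greatest common divisors, because `c i (g)` and `c j (g)` have, and so their product is
`O(l)`.
-/

set_option autoImplicit false

open Finset

namespace Pool.Agent.Results.MP_c7ee41_nt.PowerSaving

open Pool.Agent.T2h24c Pool.Agent.T2h24c.Gen

/-- The rational numbers `x i` are multiplicatively independent. -/
def MulIndep {r : ℕ} (x : Fin r → ℚ) : Prop :=
  ∀ d : Fin r → ℤ, ∏ i, x i ^ d i = 1 → ∀ i, d i = 0

lemma fin_case {F : ℕ → ℤ} (hS : ¬ (SF F).Infinite) (κ : ℝ) (hκ : 0 ≤ κ) :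
    ∃ C : ℝ, ∀ X : ℕ, 1 ≤ X → (({l ∈ SF F | l ≤ X}).ncard : ℝ) ≤ C * (X : ℝ) ^ κ := by
  have hfin : (SF F).Finite := Set.not_infinite.1 hS
  refine ⟨(SF F).ncard, fun X hX => ?_⟩
  have hX1 : (1 : ℝ) ≤ X := by exact_mod_cast hX
  have h1 : ({l ∈ SF F | l ≤ X}).ncard ≤ (SF F).ncard :=
    Set.ncard_le_ncard (fun l hl => hl.1) hfin
  have h2 : (1 : ℝ) ≤ (X : ℝ) ^ κ := Real.one_le_rpow hX1 hκ
  calc (({l ∈ SF F | l ≤ X}).ncard : ℝ) ≤ (SF F).ncard := by exact_mod_cast h1
    _ = (SF F).ncard * 1 := (mul_one _).symm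
    _ ≤ _ := mul_le_mul_of_nonneg_left h2 (Nat.cast_nonneg _)

lemma prod_PP {r : ℕ} (α β : Fin r → ℕ) (hα : ∀ i, 0 < α i) (hβ : ∀ i, 0 < β i) (d : Fin r → ℤ) :
    (∏ i, ((α i : ℚ) / β i) ^ d i) * (PP univ β α d : ℚ) = (PP univ α β d : ℚ) := by
  unfold PP
  push_cast
  rw [← prod_mul_distrib]
  refine prod_congr rfl fun i _ => ?_
  have h1 : (α i : ℚ) ≠ 0 := by exact_mod_cast (hα i).ne'
  have h2 : (β i : ℚ) ≠ 0 := by exact_mod_cast (hβ i).ne'
  rcases le_total 0 (d i) with h | h
  · obtain ⟨n, hn⟩ := Int.eq_ofNat_of_zero_le h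
    rw [hn]
    simp only [Int.toNat_natCast, zpow_natCast, Int.toNat_neg_natCast, pow_zero, mul_one]
    rw [div_pow, div_mul_cancel₀ _ (pow_ne_zero _ h2)]
  · obtain ⟨n, hn⟩ := Int.eq_ofNat_of_zero_le (neg_nonneg.mpr h)
    have hd : d i = -(n : ℤ) := by omega
    rw [hd, neg_neg]
    simp only [Int.toNat_natCast, zpow_neg, zpow_natCast, Int.toNat_neg_natCast, pow_zero, one_mul]
    rw [div_pow, inv_div, div_mul_cancel₀ _ (pow_ne_zero _ h1)]

lemma ind_of {r : ℕ} (α β : Fin r → ℕ) (hα : ∀ i, 0 < α i) (hβ : ∀ i, 0 < β i)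
    (h : MulIndep fun i => (α i : ℚ) / β i) : Ind univ α β := by
  rintro d ⟨i, -, hi⟩ he
  apply hi
  apply h d
  have h1 := prod_PP α β hα hβ d
  have h2 : (PP univ β α d : ℚ) ≠ 0 := by
    have : PP univ β α d ≠ 0 := by
      unfold PP
      exact prod_ne_zero_iff.2 fun i _ =>
        (Nat.mul_pos (Nat.pow_pos (hβ i)) (Nat.pow_pos (hα i))).ne'
    exact_mod_cast this
  rw [he] at h1
  exact mul_right_cancel₀ h2 (by rw [h1, one_mul])

/-- **Power savings.** Let `F` be multiplicative with integral values.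

(1) If `c` is an integral polynomial, `c(F)` is the endomorphism `w F c`, the rational numbers
`α i / β i`, `i < r`, are in the kernel of `c(F)` and are multiplicatively independent, and the values
`w F c (n j)`, `j < t`, are multiplicatively independent, `r, t ≥ 1`, then the number of the primes
`l ≤ X` in `S_F` is `O(X ^ (1 / σ))`, `σ = r / (r + 1) + t / (t + 1)`.

(2) If for one integral polynomial `c` the endomorphism `c(F)` is neither injective nor trivial, then
this number is `O(X ^ (2/3 + ε))` for every `ε > 0`.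

(3) If for one rational number `u = α / β ≠ 1` the numbers `u` and `|F(u)|` are multiplicatively
dependent, `|F(α) / F(β)| ^ b = (α / β) ^ a` with `b > 0`, then `F` is a monomial or this number is
`O(X ^ (2/3 + ε))` for every `ε > 0`.

(4) If for `r ≥ 1` pairwise coprime integral polynomials `c i` the endomorphisms `c i (F)` are not
injective, then this number is `O(X ^ (2/r))`. -/
theorem result (F : ℕ → ℤ) (hF1 : F 1 = 1)
    (hm : ∀ m n : ℕ, 1 ≤ m → 1 ≤ n → Nat.Coprime m n → F (m * n) = F m * F n) :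
    (∀ (c : Polynomial ℤ) (r t : ℕ) (α β : Fin r → ℕ) (n : Fin t → ℕ), 1 ≤ r → 1 ≤ t →
      (∀ i, 0 < α i ∧ 0 < β i ∧ w F c (α i) = w F c (β i)) → (∀ j, 0 < n j) →
      MulIndep (fun i => (α i : ℚ) / β i) → MulIndep (fun j => w F c (n j)) →
      ∃ C : ℝ, ∀ X : ℕ, 1 ≤ X → (({l ∈ SF F | l ≤ X}).ncard : ℝ) ≤
        C * (X : ℝ) ^ (1 / ((r : ℝ) / (r + 1) + (t : ℝ) / (t + 1)))) ∧
    (∀ (c : Polynomial ℤ) (α β n : ℕ), 0 < α → 0 < β → α ≠ β → w F c α = w F c β → 0 < n →
      w F c n ≠ 1 → ∀ ε : ℝ, 0 < ε → ∃ C : ℝ, ∀ X : ℕ, 1 ≤ X →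
        (({l ∈ SF F | l ≤ X}).ncard : ℝ) ≤ C * (X : ℝ) ^ (2 / 3 + ε)) ∧
    (∀ (α β : ℕ) (a : ℤ) (b : ℕ), 0 < α → 0 < β → α ≠ β → 0 < b →
      |(F α : ℚ) / F β| ^ b = ((α : ℚ) / β) ^ a →
      (∃ k : ℕ, ∀ n : ℕ, 1 ≤ n → F n = (n : ℤ) ^ k) ∨
      ∀ ε : ℝ, 0 < ε → ∃ C : ℝ, ∀ X : ℕ, 1 ≤ X →
        (({l ∈ SF F | l ≤ X}).ncard : ℝ) ≤ C * (X : ℝ) ^ (2 / 3 + ε)) ∧
    (∀ (r : ℕ) (c : Fin r → Polynomial ℤ) (α β : Fin r → ℕ), 1 ≤ r →
      (∀ i, 0 < α i ∧ 0 < β i ∧ α i ≠ β i ∧ w F (c i) (α i) = w F (c i) (β i)) →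
      (∀ i j, i ≠ j → Copr (c i) (c j)) →
      ∃ C : ℝ, ∀ X : ℕ, 1 ≤ X →
        (({l ∈ SF F | l ≤ X}).ncard : ℝ) ≤ C * (X : ℝ) ^ (2 / (r : ℝ))) := by
  refine ⟨?_, ?_, fun α β a b hα hβ hαβ hb hab =>
    One.result F hF1 hm ⟨α, β, hα, hβ, hαβ, a, b, hb, hab⟩, ?_⟩
  · intro c r t α β n hr ht hαβ hn hI1 hI2
    have hr0 : (0 : ℝ) < r := by exact_mod_cast hr
    have ht0 : (0 : ℝ) < t := by exact_mod_cast ht
    by_cases hS : (SF F).Infinite
    swap
    · exact fin_case hS _ (by positivity)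
    have hc := cm hF1 hm hS
    have hF0 : ∀ n : ℕ, 1 ≤ n → F n ≠ 0 := fun n hn => ne_zero hF1 hc hS hn
    have hw := wp hF1 hc hF0 (c.natDegree + 1) (fun i => c.coeff i)
    set A := num F (c.natDegree + 1) (fun i => c.coeff i) with hA
    set B := num F (c.natDegree + 1) (fun i => -c.coeff i) with hB
    have hfam : Fam F r t := by
      refine ⟨α, β, fun j => A (n j), fun j => B (n j), fun i => (hαβ i).1, fun i => (hαβ i).2.1,
        fun j => hw.Apos _ (hn j), fun j => hw.Bpos _ (hn j),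
        ind_of α β (fun i => (hαβ i).1) (fun i => (hαβ i).2.1) hI1,
        ind_of _ _ (fun j => hw.Apos _ (hn j)) (fun j => hw.Bpos _ (hn j)) ?_,
        (univ.biUnion fun i => (α i).primeFactors ∪ (β i).primeFactors) ∪
          univ.biUnion fun j => (n j).primeFactors, fun l hl hlZ => ?_⟩
      · intro d hd
        have h1 : ∀ j, ((A (n j) : ℕ) : ℚ) / ((B (n j) : ℕ) : ℚ) = w F c (n j) ^ 2 := by
          intro j
          have h2 := w_sq hF0 c (hn j)
          have h3 : ((B (n j) : ℕ) : ℚ) ≠ 0 := by exact_mod_cast (hw.Bpos _ (hn j)).ne'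
          rw [div_eq_iff h3]
          exact h2.symm
        have h4 : ∏ j, w F c (n j) ^ (2 * d j) = 1 := by
          rw [← hd]
          refine prod_congr rfl fun j _ => ?_
          show w F c (n j) ^ (2 * d j) = (((A (n j) : ℕ) : ℚ) / ((B (n j) : ℕ) : ℚ)) ^ d j
          rw [h1, zpow_mul]
          norm_cast
        intro j
        have := hI2 (fun j => 2 * d j) h4 j
        omega
      · rw [mem_union, not_or] at hlZ
        obtain ⟨z1, z2⟩ := hlZ
        have g1 : ∀ i, ¬ l ∣ α i ∧ ¬ l ∣ β i := by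
          intro i
          constructor
          · intro h
            apply z1
            rw [mem_biUnion]
            exact ⟨i, mem_univ i, mem_union_left _
              (Nat.mem_primeFactors.2 ⟨hl.1, h, (hαβ i).1.ne'⟩)⟩
          · intro h
            apply z1
            rw [mem_biUnion]
            exact ⟨i, mem_univ i, mem_union_right _
              (Nat.mem_primeFactors.2 ⟨hl.1, h, (hαβ i).2.1.ne'⟩)⟩
        have g2 : ∀ j, ¬ l ∣ n j := by
          intro j h
          apply z2
          rw [mem_biUnion]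
          exact ⟨j, mem_univ j, Nat.mem_primeFactors.2 ⟨hl.1, h, (hn j).ne'⟩⟩
        obtain ⟨h, hh⟩ := hw.pow l hl
        exact ⟨g1, fun j => ⟨(hh _ (hn j) (g2 j)).1, (hh _ (hn j) (g2 j)).2.1⟩, h,
          fun i => Gen.ker_pow hl.1 hh (hαβ i).1 (hαβ i).2.1 (g1 i).1 (g1 i).2
            (num_eq hF0 c (hαβ i).1 (hαβ i).2.1 (hαβ i).2.2),
          fun j => ⟨un l (n j), ((hh _ (hn j) (g2 j)).2.2).symm⟩⟩
    have hσ : (0 : ℝ) < (r : ℝ) / (r + 1) + (t : ℝ) / (t + 1) := by positivity
    refine bound_of_fam hr ht hfam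
      ((r : ℝ) / (r + 1) / ((r : ℝ) / (r + 1) + (t : ℝ) / (t + 1))) (by positivity) ?_ _ ?_ ?_
    · rw [div_le_one hσ]
      have : (0 : ℝ) < (t : ℝ) / (t + 1) := by positivity
      linarith
    · apply le_of_eq
      field_simp
    · apply le_of_eq
      have h1 : (1 : ℝ) - (r : ℝ) / (r + 1) / ((r : ℝ) / (r + 1) + (t : ℝ) / (t + 1)) =
          (t : ℝ) / (t + 1) / ((r : ℝ) / (r + 1) + (t : ℝ) / (t + 1)) := by
        field_simp
        ring
      rw [h1]
      field_simp
  · intro c α β n hα hβ hαβ he hn hne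
    by_cases hS : (SF F).Infinite
    swap
    · exact fun ε hε => fin_case hS _ (by positivity)
    have hc := cm hF1 hm hS
    have hF0 : ∀ n : ℕ, 1 ≤ n → F n ≠ 0 := fun n hn => ne_zero hF1 hc hS hn
    exact bound (wp hF1 hc hF0 (c.natDegree + 1) (fun i => c.coeff i)) hα hβ hαβ
      (num_eq hF0 c hα hβ he) hn (num_ne hF0 c hn hne)
  · intro r c α β hr hαβ hco
    have hr0 : (0 : ℝ) < r := by exact_mod_cast hr
    by_cases hS : (SF F).Infinite
    swap
    · exact fin_case hS _ (by positivity)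
    have hc := cm hF1 hm hS
    have hF0 : ∀ n : ℕ, 1 ≤ n → F n ≠ 0 := fun n hn => ne_zero hF1 hc hS hn
    exact several_poly hF1 hc hF0 hr α β (fun i => (hαβ i).1) (fun i => (hαβ i).2.1)
      (fun i => (hαβ i).2.2.1) c (fun i => (hαβ i).2.2.2) hco

end Pool.Agent.Results.MP_c7ee41_nt.PowerSaving
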